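import Pool.Agent.helper97.KR.Spec

set_option autoImplicit false

namespace Pool.Agent.helper97.KR

open Finset Classical

noncomputable section

theorem LB2_divmod (m q i : ℤ) (h0 : 0 ≤ i) (h1 : i < m) :
    (q * m + i) / m = q ∧ (q * m + i) % m = i := by
  have hm : m ≠ 0 := by omega
  constructor
  · rw [add_comm, Int.add_mul_ediv_right _ _ hm, Int.ediv_eq_zero_of_lt h0 h1, zero_add]
  · rw [add_comm, Int.add_mul_emod_self_right, Int.emod_eq_of_lt h0 h1]

theorem LB2_symm {V E : Type} (ends : E → Sym2 V) (F : Set E) (a b : V) (h : Jn ends F a b) :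
    Jn ends F b a := by
  obtain ⟨e, he, h⟩ := h
  exact ⟨e, he, h.trans Sym2.eq_swap⟩

theorem LB2_rsymm {V E : Type} (ends : E → Sym2 V) (F : Set E) (a b : V)
    (h : Relation.ReflTransGen (Jn ends F) a b) : Relation.ReflTransGen (Jn ends F) b a := by
  induction h with
  | refl => exact Relation.ReflTransGen.refl
  | tail _ hbc ih => exact Relation.ReflTransGen.head (LB2_symm ends F _ _ hbc) ih

theorem LB2_main (V E : Type) (ends : E → Sym2 V) (S T : Finset V) (F : Finset E) (x : V) (m : ℕ)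
    (h : V → ZMod 3 → Option V) (lam : V → ZMod 3 → E) (e : Fin m → V) (hm : 1 ≤ m)
    (hS : ∀ v, v ∈ S ↔ v = x ∨ v ∈ T)
    (hh : ∀ v ∈ T, ∀ k u, h v k = some u → u ∈ T)
    (hlam : ∀ v ∈ T, ∀ k, lam v k ∈ F ∧ ends (lam v k) = s(v, (h v k).getD x))
    (hinj : ∀ v ∈ T, ∀ v' ∈ T, ∀ k k', lam v k = lam v' k' → v = v' ∧ k = k')
    (hsur : ∀ e ∈ F, ∃ v ∈ T, ∃ k, lam v k = e)
    (he : Function.Injective e) (hev : ∀ v, v ∈ T ↔ ∃ i, e i = v)
    (hρ : ∀ (q : ZMod 3) (r : ℕ), r ≤ m → ∃ ρ : V → ℕ, ∀ (i : Fin m) (u : V),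
      (if (i : ℕ) < r then h (e i) (q + 1) else h (e i) q) = some u → ρ u < ρ (e i)) :
    ∃ c : ℤ → E, (∀ j, c (j + 3 * (m : ℤ)) = c j) ∧
      Set.BijOn c (Set.Ico 0 (3 * (m : ℤ))) (F : Set E) ∧
      ∀ j, Con ends S (c '' Set.Ico j (j + (m : ℤ))) := by
  have hm0 : (0 : ℤ) < m := by exact_mod_cast hm
  have hlt : ∀ j : ℤ, (j % (m : ℤ)).toNat < m := fun j => by
    have h1 := Int.emod_nonneg j hm0.ne'
    have h2 := Int.emod_lt_of_pos j hm0
    omega
  obtain ⟨c, hc⟩ : ∃ c : ℤ → E, ∀ j, c j = lam (e ⟨(j % (m : ℤ)).toNat, hlt j⟩)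
      ((j / (m : ℤ) : ℤ) : ZMod 3) := ⟨_, fun _ => rfl⟩
  have hdm : ∀ (q : ℤ) (i : Fin m), (q * m + (i : ℕ)) / (m : ℤ) = q ∧
      (q * m + (i : ℕ)) % (m : ℤ) = ((i : ℕ) : ℤ) := fun q i =>
    LB2_divmod m q ((i : ℕ) : ℤ) (by positivity) (by exact_mod_cast i.2)
  have hcv : ∀ (q : ℤ) (i : Fin m), c (q * m + (i : ℕ)) = lam (e i) (q : ZMod 3) := by
    intro q i
    have hi := hdm q i
    have hf : (⟨((q * m + (i : ℕ)) % (m : ℤ)).toNat, hlt _⟩ : Fin m) = i :=
      Fin.ext (by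
        show ((q * m + (i : ℕ)) % (m : ℤ)).toNat = (i : ℕ)
        rw [hi.2]
        exact Int.toNat_natCast _)
    rw [hc, hf, hi.1]
  have hdec : ∀ j : ℤ, ∃ (q : ℤ) (i : Fin m), j = q * m + (i : ℕ) := by
    intro j
    refine ⟨j / m, ⟨(j % (m : ℤ)).toNat, hlt j⟩, ?_⟩
    have h1 := Int.emod_nonneg j hm0.ne'
    have h2 := Int.ediv_mul_add_emod j m
    show j = j / m * m + (((j % (m : ℤ)).toNat : ℕ) : ℤ)
    rw [Int.toNat_of_nonneg h1, h2]
  have heT : ∀ i, e i ∈ T := fun i => (hev _).2 ⟨i, rfl⟩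
  refine ⟨c, ?_, ⟨?_, ?_, ?_⟩, ?_⟩
  · intro j
    obtain ⟨q, i, rfl⟩ := hdec j
    have h1 : q * (m : ℤ) + (i : ℕ) + 3 * (m : ℤ) = (q + 3) * (m : ℤ) + (i : ℕ) := by ring
    rw [h1, hcv, hcv]
    have h3 : ((q + 3 : ℤ) : ZMod 3) = (q : ZMod 3) := by
      push_cast
      have : (3 : ZMod 3) = 0 := rfl
      rw [this, add_zero]
    rw [h3]
  · intro j _
    obtain ⟨q, i, rfl⟩ := hdec j
    rw [hcv]
    exact (hlam (e i) (heT i) _).1
  · intro j hj j' hj' hjj
    obtain ⟨q, i, rfl⟩ := hdec j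
    obtain ⟨q', i', rfl⟩ := hdec j'
    rw [hcv, hcv] at hjj
    obtain ⟨h1, h2⟩ := hinj _ (heT i) _ (heT i') _ _ hjj
    have h3 := he h1
    subst h3
    have hq : 0 ≤ q ∧ q < 3 := by
      have h4 := (hdm q i).1
      constructor
      · rw [← h4]
        exact Int.ediv_nonneg hj.1 hm0.le
      · rw [← h4]
        exact Int.ediv_lt_of_lt_mul hm0 hj.2
    have hq' : 0 ≤ q' ∧ q' < 3 := by
      have h4 := (hdm q' i).1
      constructor
      · rw [← h4]
        exact Int.ediv_nonneg hj'.1 hm0.le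
      · rw [← h4]
        exact Int.ediv_lt_of_lt_mul hm0 hj'.2
    have h5 := (ZMod.intCast_eq_intCast_iff_dvd_sub q q' 3).1 h2
    have h6 : q = q' := by
      obtain ⟨t, ht⟩ := h5
      push_cast at ht
      omega
    rw [h6]
  · intro e0 he0
    obtain ⟨v, hv, k, hk⟩ := hsur e0 he0
    obtain ⟨i, rfl⟩ := (hev v).1 hv
    refine ⟨(k.val : ℤ) * m + (i : ℕ), ⟨by positivity, ?_⟩, ?_⟩
    · have h1 : k.val < 3 := ZMod.val_lt k
      have h2 : (k.val : ℤ) ≤ 2 := by omega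
      have h3 : ((i : ℕ) : ℤ) < m := by exact_mod_cast i.2
      have h4 : (k.val : ℤ) * m ≤ 2 * m := mul_le_mul_of_nonneg_right h2 hm0.le
      linarith
    · rw [hcv, ← hk]
      have h1 : (((k.val : ℕ) : ℤ) : ZMod 3) = k := by
        rw [Int.cast_natCast]
        exact ZMod.natCast_zmod_val k
      rw [h1]
  · intro j
    obtain ⟨q, r, hj⟩ := hdec j
    obtain ⟨ρ, hρ'⟩ := hρ (q : ZMod 3) r r.2.le
    obtain ⟨W, hW⟩ : ∃ W : Set E, W = c '' Set.Ico j (j + (m : ℤ)) := ⟨_, rfl⟩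
    have hr : ((r : ℕ) : ℤ) < m := by exact_mod_cast r.2
    have hmem : ∀ i : Fin m, ∃ k : ZMod 3, lam (e i) k ∈ W ∧
        ∀ u, h (e i) k = some u → ρ u < ρ (e i) := by
      intro i
      have hi : ((i : ℕ) : ℤ) < m := by exact_mod_cast i.2
      have h2 := hρ' i
      by_cases hir : (i : ℕ) < (r : ℕ)
      · simp only [hir, if_true] at h2
        refine ⟨(q : ZMod 3) + 1, ?_, h2⟩
        have h3 := hcv (q + 1) i
        have h4 : ((q + 1 : ℤ) : ZMod 3) = (q : ZMod 3) + 1 := by push_cast; rfl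
        rw [h4] at h3
        rw [← h3, hW]
        refine ⟨_, ⟨?_, ?_⟩, rfl⟩
        · rw [hj]
          have : (0 : ℤ) ≤ (i : ℕ) := by positivity
          linarith [add_mul q 1 (m : ℤ)]
        · rw [hj]
          have : ((i : ℕ) : ℤ) < (r : ℕ) := by exact_mod_cast hir
          linarith [add_mul q 1 (m : ℤ)]
      · simp only [hir, if_false] at h2
        refine ⟨(q : ZMod 3), ?_, h2⟩
        rw [← hcv q i, hW]
        refine ⟨_, ⟨?_, ?_⟩, rfl⟩
        · rw [hj]
          have : ((r : ℕ) : ℤ) ≤ (i : ℕ) := by exact_mod_cast not_lt.1 hir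
          linarith
        · rw [hj]
          have : (0 : ℤ) ≤ (r : ℕ) := by positivity
          linarith
    have hconn : ∀ (n : ℕ) (v : V), v ∈ T → ρ v = n → Relation.ReflTransGen (Jn ends W) v x := by
      intro n
      induction n using Nat.strong_induction_on with
      | _ n ih =>
        intro v hv hn
        obtain ⟨i, rfl⟩ := (hev v).1 hv
        obtain ⟨k, hk1, hk2⟩ := hmem i
        have h3 := (hlam (e i) hv k).2
        rcases hhk : h (e i) k with _ | u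
        · rw [hhk] at h3
          exact Relation.ReflTransGen.single ⟨_, hk1, h3⟩
        · rw [hhk] at h3
          have hu := hh (e i) hv k u hhk
          have hlt' := hk2 u hhk
          exact Relation.ReflTransGen.head ⟨_, hk1, h3⟩ (ih (ρ u) (hn ▸ hlt') u hu rfl)
    rw [← hW]
    have hall : ∀ v ∈ S, Relation.ReflTransGen (Jn ends W) v x := by
      intro v hv
      rcases (hS v).1 hv with rfl | hv
      · exact Relation.ReflTransGen.refl
      · exact hconn _ v hv rfl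
    intro u hu v hv
    exact (hall u hu).trans (LB2_rsymm ends W _ _ (hall v hv))

theorem LB2 : LB2_stmt := by
  intro V E ends S F x h lam e hx hh hlam hinj hsur he hev hρ hS
  have h1 : (S.erase x).card + 1 = S.card := card_erase_add_one hx
  have h2 : (S.card : ℤ) - 1 = ((S.erase x).card : ℤ) := by omega
  rw [h2]
  refine LB2_main V E ends S (S.erase x) F x _ h lam e (by omega) ?_ (fun v hv k u hu => (hh v hv k u hu).1)
    hlam hinj hsur he hev hρ
  intro v
  rw [mem_erase]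
  constructor
  · intro hv
    by_cases hvx : v = x
    · exact Or.inl hvx
    · exact Or.inr ⟨hvx, hv⟩
  · rintro (rfl | ⟨_, hv⟩)
    · exact hx
    · exact hv

end

end Pool.Agent.helper97.KR
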